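import Pool.Agent.N555.MQ.Fin2

/-!
# Morrey's problem for `W(F) = K |F|² + c det F - φ(F₀₀, F₁₁)`, `φ` convex

`φ` is an arbitrary convex function of the two diagonal entries of a real `2 × 2` matrix, `K` and
`c` are real numbers.  If `W` is rank-one convex, or only if `K x² - φ(x, y)` is convex in `x` and
`K y² - φ(x, y)` is convex in `y`, then `W` is quasiconvex.  In other words, for every separately
convex function `f` of two real variables for which `K (x² + y²) - f(x, y)` is convex the function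
`f(F₀₀, F₁₁) + K (F₀₁² + F₁₀²)` is quasiconvex.

Proof: for smooth `φ` let `f = K (x² + y²) - φ`.  The second derivatives satisfy
`∑ⱼ D²W(F)[∂ⱼDu, ∂ⱼDu] + dθ(∂₀Du, ∂₁Du) = f₀₀ (Δu₀)² + f₁₁ (Δu₁)² + D²φ[(∂₁∂₁u₀, -∂₀∂₁u₁)]
+ D²φ[(∂₀∂₁u₀, -∂₀∂₀u₁)] ≥ 0` with the one-form `θ = 2 f₀ dF₀₁ - 2 f₁ dF₁₀`, so that the
integral of `W(F₀ + Du)` decreases along the heat flow.
-/

set_option autoImplicit false

open Matrix

namespace Pool.Agent.Results.MP_515557_an.DirichletMinusConvex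

/-- Convexity on the segments in rank-one directions. -/
def RankOneConvex (W : Matrix (Fin 2) (Fin 2) ℝ → ℝ) : Prop :=
  ∀ F H : Matrix (Fin 2) (Fin 2) ℝ, H.rank = 1 → ∀ t : ℝ, 0 ≤ t → t ≤ 1 →
    W ((1 - t) • F + t • (F + H)) ≤ (1 - t) * W F + t * W (F + H)

/-- The inequality of quasiconvexity at all matrices, for all bounded open sets `Ω` and all
Lipschitz maps `ϑ` vanishing off `Ω`. -/
def Quasiconvex (W : Matrix (Fin 2) (Fin 2) ℝ → ℝ) : Prop :=
  ∀ F₀ : Matrix (Fin 2) (Fin 2) ℝ, ∀ Ω : Set (Fin 2 → ℝ),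
    IsOpen Ω → Bornology.IsBounded Ω →
    ∀ ϑ : (Fin 2 → ℝ) → (Fin 2 → ℝ), (∃ K, LipschitzWith K ϑ) →
      (∀ x, x ∉ Ω → ϑ x = 0) →
      W F₀ * (MeasureTheory.volume Ω).toReal ≤
        ∫ x in Ω, W (F₀ + LinearMap.toMatrix'
          ((fderiv ℝ ϑ x : (Fin 2 → ℝ) →L[ℝ] (Fin 2 → ℝ)) :
            (Fin 2 → ℝ) →ₗ[ℝ] (Fin 2 → ℝ)))

/-- The function `K |F|² + c det F - φ(F₀₀, F₁₁)`. -/
noncomputable def Energy (φ : ℝ × ℝ → ℝ) (K c : ℝ) (F : Matrix (Fin 2) (Fin 2) ℝ) : ℝ :=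
  K * (F 0 0 ^ 2 + F 0 1 ^ 2 + F 1 0 ^ 2 + F 1 1 ^ 2) + c * F.det - φ (F 0 0, F 1 1)

/-- Let `φ` be a convex function on the plane and `W(F) = K |F|² + c det F - φ(F₀₀, F₁₁)`.  If `W`
is rank-one convex then `K x² - φ(x, y)` is convex in `x` and `K y² - φ(x, y)` is convex in `y`; if
this holds then `W` is quasiconvex. -/
theorem result (φ : ℝ × ℝ → ℝ) (K c : ℝ) (hφ : ConvexOn ℝ Set.univ φ) :
    (RankOneConvex (Energy φ K c) →
      (∀ y : ℝ, ConvexOn ℝ Set.univ fun x : ℝ => K * x ^ 2 - φ (x, y)) ∧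
      (∀ x : ℝ, ConvexOn ℝ Set.univ fun y : ℝ => K * y ^ 2 - φ (x, y))) ∧
    ((∀ y : ℝ, ConvexOn ℝ Set.univ fun x : ℝ => K * x ^ 2 - φ (x, y)) →
      (∀ x : ℝ, ConvexOn ℝ Set.univ fun y : ℝ => K * y ^ 2 - φ (x, y)) →
      Quasiconvex (Energy φ K c)) := by
  have hadd : ∀ (g : ℝ → ℝ) (k : ℝ), ConvexOn ℝ Set.univ g →
      ConvexOn ℝ Set.univ fun x : ℝ => g x + k := by
    intro g k hg
    exact hg.add (convexOn_const k convex_univ)
  refine ⟨fun hroc => ?_, fun hx hy => ?_⟩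
  · have hroc' : Pool.Agent.Helper188.Morrey.RankOneConvex (Energy φ K c) := hroc
    refine ⟨fun y => ?_, fun x => ?_⟩
    · have hl := hroc'.line !![0, 0; 0, y] !![1, 0; 0, 0] (by simp [Matrix.det_fin_two])
      refine ⟨convex_univ, fun s _ u _ a b ha hb hab => ?_⟩
      have h1 := hl.2 (Set.mem_univ s) (Set.mem_univ u) ha hb hab
      simp [Energy, Matrix.det_fin_two] at h1
      simp only [smul_eq_mul]
      have ha' : a = 1 - b := by linarith
      rw [ha'] at h1 ⊢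
      nlinarith
    · have hl := hroc'.line !![x, 0; 0, 0] !![0, 0; 0, 1] (by simp [Matrix.det_fin_two])
      refine ⟨convex_univ, fun s _ u _ a b ha hb hab => ?_⟩
      have h1 := hl.2 (Set.mem_univ s) (Set.mem_univ u) ha hb hab
      simp [Energy, Matrix.det_fin_two] at h1
      simp only [smul_eq_mul]
      have ha' : a = 1 - b := by linarith
      rw [ha'] at h1 ⊢
      nlinarith
  · have h := N555.MQ.fin_diag (fun x y => K * (x ^ 2 + y ^ 2) - φ (x, y)) K c
      (fun y => by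
        have e : (fun x : ℝ => K * (x ^ 2 + y ^ 2) - φ (x, y))
            = fun x : ℝ => (K * x ^ 2 - φ (x, y)) + K * y ^ 2 := by
          funext x; ring
        rw [e]
        exact hadd _ _ (hx y))
      (fun x => by
        have e : (fun y : ℝ => K * (x ^ 2 + y ^ 2) - φ (x, y))
            = fun y : ℝ => (K * y ^ 2 - φ (x, y)) + K * x ^ 2 := by
          funext y; ring
        rw [e]
        exact hadd _ _ (hy x))
      (by
        have e : (fun z : ℝ × ℝ => K * (z.1 ^ 2 + z.2 ^ 2)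
            - (fun x y => K * (x ^ 2 + y ^ 2) - φ (x, y)) z.1 z.2) = φ := by
          funext z
          simp
        rw [e]
        exact hφ)
    have e : Energy φ K c = fun F => (K * (F 0 0 ^ 2 + F 1 1 ^ 2) - φ (F 0 0, F 1 1))
          + K * (F 0 1 ^ 2 + F 1 0 ^ 2) + c * F.det := by
      funext F
      unfold Energy
      ring
    rw [e]
    exact h

end Pool.Agent.Results.MP_515557_an.DirichletMinusConvex
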