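import Pool.Agent.N797.MR.MatT

/-!
# Morrey's problem for planar energies of degree two, invariant under rotations from one side,
plus functions of the determinant

Let `w` be a function of a real `2 × 2` matrix which is invariant under rotations from one side
only (from the left: frame-indifference, no isotropy is assumed; or from the right), and positively
homogeneous of degree two, and let `W(A) = w(A) + f(det A)` with a real function `f` such that
`|f(x) - f(0)| ≤ C |x|` for all `x` near `0`.  If `W` is rank-one convex, then `W` is polyconvex,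
with a finite convex function, and quasiconvex.
-/

set_option autoImplicit false

namespace Pool.Agent.Results.MP_515557_an.FrameIndifferentDegreeTwo

open scoped Topology

/-- Let `w` be a real-valued function of a real `2 × 2` matrix with `w (R A) = w A` for all
rotations `R` (or with `w (A R) = w A` for all rotations `R`) and `w (c A) = c ^ 2 w A` for all
`c > 0`, let `f` be a function of a real variable with `|f x - f 0| ≤ C |x|` for some `C` and all
`x` in a neighbourhood of `0`, and let `W A = w A + f (det A)`.  If `W` is rank-one convex then `W`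
is polyconvex and quasiconvex. -/
theorem result (w : Matrix (Fin 2) (Fin 2) ℝ → ℝ) (f : ℝ → ℝ)
    (W : Matrix (Fin 2) (Fin 2) ℝ → ℝ)
    (hinv : (∀ R ∈ Matrix.specialOrthogonalGroup (Fin 2) ℝ, ∀ A, w (R * A) = w A) ∨
      (∀ R ∈ Matrix.specialOrthogonalGroup (Fin 2) ℝ, ∀ A, w (A * R) = w A))
    (hhom : ∀ c : ℝ, 0 < c → ∀ A, w (c • A) = c ^ 2 * w A)
    (hf : ∃ C : ℝ, ∀ᶠ x in 𝓝 (0 : ℝ), |f x - f 0| ≤ C * |x|)
    (hW : ∀ A, W A = w A + f A.det)
    (hroc : ∀ F H : Matrix (Fin 2) (Fin 2) ℝ, H.rank = 1 → ∀ t : ℝ, 0 ≤ t → t ≤ 1 →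
      W ((1 - t) • F + t • (F + H)) ≤ (1 - t) * W F + t * W (F + H)) :
    (∃ P : Matrix (Fin 2) (Fin 2) ℝ × ℝ → ℝ, ConvexOn ℝ Set.univ P ∧ ∀ A, W A = P (A, A.det)) ∧
    ∀ F₀ : Matrix (Fin 2) (Fin 2) ℝ, ∀ Ω : Set (Fin 2 → ℝ), IsOpen Ω → Bornology.IsBounded Ω →
      ∀ ϑ : (Fin 2 → ℝ) → (Fin 2 → ℝ), (∃ K, LipschitzWith K ϑ) → (∀ x, x ∉ Ω → ϑ x = 0) →
        W F₀ * (MeasureTheory.volume Ω).toReal ≤
          ∫ x in Ω, W (F₀ + LinearMap.toMatrix'
            ((fderiv ℝ ϑ x : (Fin 2 → ℝ) →L[ℝ] (Fin 2 → ℝ)) :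
              (Fin 2 → ℝ) →ₗ[ℝ] (Fin 2 → ℝ))) :=
  Pool.Agent.N797.MR.full_main hinv hhom hf hW hroc

end Pool.Agent.Results.MP_515557_an.FrameIndifferentDegreeTwo
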