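import Pool.Agent.N555.MQ.Fin2

/-!
# Morrey's problem for `W(F) = h(F β) + Q(F) + L(F)` on real `2 × 2` matrices

`β` is a vector, `h` an arbitrary function of the vector `F β` (for instance of the first column of
`F`), `Q` an arbitrary quadratic form and `L` an arbitrary linear form of the matrix.  Every
rank-one convex function of this form is quasiconvex, and there are rank-one convex functions of
this form which are not polyconvex.

Proof: for smooth `h` the second derivative of `W` at `F` depends on `F β` only, and so does the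
multiplier `l` with `D²W(F)[H, H] + l(F β) det H ≥ 0`.  The integral of `W(F₀ + Du)` over the torus
decreases along the heat flow `∂ₜ u = (β · ∇)² u`, because with `p = F₀ β + (β · ∇) u` the
dissipation is the integral of `D²W[∇p, ∇p] ≥ - l(p) det ∇p` and the two-form `l(p) dp₀ ∧ dp₁` has
integral zero.  In the limit `Du = c ⊗ β^⊥`, where `W` is convex.
-/

set_option autoImplicit false

open Matrix

namespace Pool.Agent.Results.MP_515557_an.OneColumnPlusQuadratic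

/-- Convexity on the segments in rank-one directions. -/
def RankOneConvex (W : Matrix (Fin 2) (Fin 2) ℝ → ℝ) : Prop :=
  ∀ F H : Matrix (Fin 2) (Fin 2) ℝ, H.rank = 1 → ∀ t : ℝ, 0 ≤ t → t ≤ 1 →
    W ((1 - t) • F + t • (F + H)) ≤ (1 - t) * W F + t * W (F + H)

/-- The inequality of quasiconvexity at all matrices, for all bounded open sets `Ω` and all
Lipschitz maps `ϑ` vanishing off `Ω`. -/
def Quasiconvex (W : Matrix (Fin 2) (Fin 2) ℝ → ℝ) : Prop :=
  ∀ F₀ : Matrix (Fin 2) (Fin 2) ℝ, ∀ Ω : Set (Fin 2 → ℝ),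
    IsOpen Ω → Bornology.IsBounded Ω →
    ∀ ϑ : (Fin 2 → ℝ) → (Fin 2 → ℝ), (∃ K, LipschitzWith K ϑ) →
      (∀ x, x ∉ Ω → ϑ x = 0) →
      W F₀ * (MeasureTheory.volume Ω).toReal ≤
        ∫ x in Ω, W (F₀ + LinearMap.toMatrix'
          ((fderiv ℝ ϑ x : (Fin 2 → ℝ) →L[ℝ] (Fin 2 → ℝ)) :
            (Fin 2 → ℝ) →ₗ[ℝ] (Fin 2 → ℝ)))

/-- `W(F) = P(F, det F)` for a convex function `P` with values in `ℝ ∪ {+∞}`. -/
def Polyconvex (W : Matrix (Fin 2) (Fin 2) ℝ → ℝ) : Prop :=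
  ∃ P : Matrix (Fin 2) (Fin 2) ℝ × ℝ → EReal, (∀ z, P z ≠ ⊥) ∧
    (∀ z w : Matrix (Fin 2) (Fin 2) ℝ × ℝ, ∀ a b : ℝ, 0 ≤ a → 0 ≤ b → a + b = 1 →
      P (a • z + b • w) ≤ (a : EReal) * P z + (b : EReal) * P w) ∧
    ∀ F, P (F, F.det) = (W F : EReal)

/-- Every rank-one convex function `W(F) = h(F β) + Q(F) + L(F)` of a real `2 × 2` matrix, with an
arbitrary function `h`, a quadratic form `Q` and a linear form `L`, is quasiconvex; some rank-one
convex functions `h(F e₀) + Q(F)` are not polyconvex. -/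
theorem result :
    (∀ (β : Fin 2 → ℝ) (h : (Fin 2 → ℝ) → ℝ)
      (Q : QuadraticForm ℝ (Matrix (Fin 2) (Fin 2) ℝ)) (L : Matrix (Fin 2) (Fin 2) ℝ →ₗ[ℝ] ℝ),
      RankOneConvex (fun F => h (F *ᵥ β) + Q F + L F) →
        Quasiconvex (fun F => h (F *ᵥ β) + Q F + L F)) ∧
    ∃ (h : (Fin 2 → ℝ) → ℝ) (Q : QuadraticForm ℝ (Matrix (Fin 2) (Fin 2) ℝ)),
      RankOneConvex (fun F => h (F *ᵥ ![1, 0]) + Q F) ∧
        ¬ Polyconvex (fun F => h (F *ᵥ ![1, 0]) + Q F) := by
  refine ⟨fun β h Q L hroc => N555.MQ.fin_quad β h Q L hroc,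
    fun v => N555.MQ.kk (v 0) (v 1), N555.MQ.QE, ?_, ?_⟩
  · have e : (fun F : Matrix (Fin 2) (Fin 2) ℝ =>
        (fun v : Fin 2 → ℝ => N555.MQ.kk (v 0) (v 1)) (F *ᵥ ![1, 0]) + N555.MQ.QE F)
        = N555.MQ.WE := funext N555.MQ.WE_eq
    rw [e]
    intro F H hH t ht0 ht1
    exact N555.MQ.WE_roc F H
      (Pool.Agent.Helper188.Morrey.det_eq_zero_of_rank hH.le) t ht0 ht1
  · have e : (fun F : Matrix (Fin 2) (Fin 2) ℝ =>
        (fun v : Fin 2 → ℝ => N555.MQ.kk (v 0) (v 1)) (F *ᵥ ![1, 0]) + N555.MQ.QE F)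
        = N555.MQ.WE := funext N555.MQ.WE_eq
    rw [e]
    exact N555.MQ.WE_not_poly

end Pool.Agent.Results.MP_515557_an.OneColumnPlusQuadratic
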