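import Pool.Agent.N261.VI.Iso

/-!
# Morrey's problem for the planar volumetric-isochoric split

Let `W(A) = w(A) + f(det A)` for the real `2 × 2` matrices `A` with `det A > 0`, where `w` is
isotropic (invariant under rotations from the left and from the right) and isochoric (invariant
under positive dilations), that is, a function of `A / √(det A)`, or of the quotient of the two
singular values; `w` and `f` are otherwise arbitrary (no continuity, no bound as `det A → 0`).
If `W` is rank-one convex on the set of matrices with positive determinant, then the Morrey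
inequality holds at every matrix with positive determinant and for every Lipschitz test map which
keeps the determinant positive almost everywhere and for which the positive part of the energy is
integrable.

For energies with a concave function `f` this was reduced in the literature to the single open
example `s / v + 2 log v` (`s ≥ v` the singular values).
-/

set_option autoImplicit false

namespace Pool.Agent.Results.MP_515557_an.VolumetricIsochoric

open MeasureTheory

/-- the rotation by the angle `θ` -/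
noncomputable def rot (θ : ℝ) : Matrix (Fin 2) (Fin 2) ℝ :=
  !![Real.cos θ, -Real.sin θ; Real.sin θ, Real.cos θ]

/-- the matrix `F₀ + Dϑ(x)` -/
noncomputable def Grad (F₀ : Matrix (Fin 2) (Fin 2) ℝ) (ϑ : (Fin 2 → ℝ) → (Fin 2 → ℝ))
    (x : Fin 2 → ℝ) : Matrix (Fin 2) (Fin 2) ℝ :=
  F₀ + LinearMap.toMatrix'
    ((fderiv ℝ ϑ x : (Fin 2 → ℝ) →L[ℝ] (Fin 2 → ℝ)) : (Fin 2 → ℝ) →ₗ[ℝ] (Fin 2 → ℝ))

/-- convexity along the segments in rank-one directions between matrices with positive
determinant -/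
def RankOneConvexPos (W : Matrix (Fin 2) (Fin 2) ℝ → ℝ) : Prop :=
  ∀ F H : Matrix (Fin 2) (Fin 2) ℝ, H.rank = 1 → 0 < F.det → 0 < (F + H).det →
    ∀ t : ℝ, 0 ≤ t → t ≤ 1 → W ((1 - t) • F + t • (F + H)) ≤ (1 - t) * W F + t * W (F + H)

/-- the Morrey inequality at matrices `F₀` with positive determinant, for Lipschitz maps `ϑ`
vanishing off a bounded open set `Ω` such that `det (F₀ + Dϑ) > 0` almost everywhere on `Ω` and the
positive part of `W(F₀ + Dϑ)` is integrable on `Ω` -/
def QuasiconvexPos (W : Matrix (Fin 2) (Fin 2) ℝ → ℝ) : Prop :=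
  ∀ F₀ : Matrix (Fin 2) (Fin 2) ℝ, 0 < F₀.det → ∀ Ω : Set (Fin 2 → ℝ),
    IsOpen Ω → Bornology.IsBounded Ω →
    ∀ ϑ : (Fin 2 → ℝ) → (Fin 2 → ℝ), (∃ K, LipschitzWith K ϑ) → (∀ x, x ∉ Ω → ϑ x = 0) →
      (∀ᵐ x ∂(volume.restrict Ω), 0 < (Grad F₀ ϑ x).det) →
      ∫⁻ x in Ω, ENNReal.ofReal (W (Grad F₀ ϑ x)) ≠ ⊤ →
      IntegrableOn (fun x => W (Grad F₀ ϑ x)) Ω ∧
        W F₀ * (volume Ω).toReal ≤ ∫ x in Ω, W (Grad F₀ ϑ x)

/-- **Morrey's problem for the planar volumetric-isochoric split.** Let `w` be a function of the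
real `2 × 2` matrices with positive determinant which is invariant under rotations from both sides
and under positive dilations, let `f` be any function of the determinant and
`W(A) = w(A) + f(det A)` for `det A > 0`. If `W` is rank-one convex on the matrices with positive
determinant, then it is quasiconvex there. -/
theorem result (w : Matrix (Fin 2) (Fin 2) ℝ → ℝ) (f : ℝ → ℝ)
    (W : Matrix (Fin 2) (Fin 2) ℝ → ℝ)
    (hrot : ∀ A : Matrix (Fin 2) (Fin 2) ℝ, 0 < A.det → ∀ φ ψ : ℝ,
      w (rot φ * A * rot ψ) = w A)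
    (hdil : ∀ A : Matrix (Fin 2) (Fin 2) ℝ, 0 < A.det → ∀ c : ℝ, 0 < c → w (c • A) = w A)
    (hW : ∀ A : Matrix (Fin 2) (Fin 2) ℝ, 0 < A.det → W A = w A + f A.det)
    (hR : RankOneConvexPos W) : QuasiconvexPos W := by
  intro F₀ h0 Ω hΩ hb ϑ hϑ hz hpos hfin
  have hW' : ∀ A : Matrix (Fin 2) (Fin 2) ℝ, 0 < A.det →
      W A = Pool.Agent.R222.VI.wv (fun t => w !![t, 0; 0, 1]) f (Pool.Agent.W360.MQ.cab A) := by
    intro A hA
    rw [hW A hA, Pool.Agent.N261.VI.iso_eq w hrot hdil A hA, Pool.Agent.R222.VI.wv_sv]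
    congr 2
    rw [(Pool.Agent.W74.MQ.OPN.main A).2]
    ring
  have hRc : Pool.Agent.Y273.VI.RCp (Pool.Agent.R222.VI.wv (fun t => w !![t, 0; 0, 1]) f) :=
    Pool.Agent.Y273.VI.RCp_of hW' hR
  have hpos' : ∀ᵐ x ∂(volume.restrict Ω),
      ‖(Pool.Agent.W523.MQ.OM.T F₀ (fderiv ℝ ϑ x)).2‖
        < ‖(Pool.Agent.W523.MQ.OM.T F₀ (fderiv ℝ ϑ x)).1‖ := by
    filter_upwards [hpos] with x hx
    exact (Pool.Agent.Y273.VI.det_cab _).1 hx
  have hev : (fun x => W (Grad F₀ ϑ x)) =ᵐ[volume.restrict Ω]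
      fun x => Pool.Agent.R222.VI.wv (fun t => w !![t, 0; 0, 1]) f
        (Pool.Agent.W523.MQ.OM.T F₀ (fderiv ℝ ϑ x)) := by
    filter_upwards [hpos] with x hx
    exact hW' _ hx
  have hfin' : ∫⁻ x in Ω, ENNReal.ofReal (Pool.Agent.R222.VI.wv (fun t => w !![t, 0; 0, 1]) f
      (Pool.Agent.W523.MQ.OM.T F₀ (fderiv ℝ ϑ x))) ≠ ⊤ := by
    have e := lintegral_congr_ae (hev.fun_comp ENNReal.ofReal)
    simp only [Function.comp] at e
    rw [← e]
    exact hfin
  obtain ⟨h1, h2⟩ := Pool.Agent.R222.VI.main_c hRc ⟨hΩ, hb, hϑ, hz⟩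
    ((Pool.Agent.Y273.VI.det_cab F₀).1 h0) hpos' hfin'
  refine ⟨h1.congr_fun_ae hev.symm, ?_⟩
  rw [integral_congr_ae hev, hW' F₀ h0]
  exact h2

end Pool.Agent.Results.MP_515557_an.VolumetricIsochoric
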